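import Pool.Agent.H91.Modular

set_option autoImplicit false

open Filter Topology H91.Modular in
theorem Pool.Agent.Results.MP_106cb8_an.NotRegular.result :
    ∃ (X : Type) (_ : AddCommGroup X) (_ : Module ℝ X) (ρ : X → ENNReal),
    (∀ u, ρ u = 0 ↔ u = 0) ∧ (∀ (α : ℝ) (u : X), |α| = 1 → ρ (α • u) = ρ u) ∧
    (∀ α : ℝ, 0 ≤ α → α ≤ 1 → ∀ u w : X, ρ (α • u + (1 - α) • w) ≤
      ENNReal.ofReal α * ρ u + ENNReal.ofReal (1 - α) * ρ w) ∧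
    (∀ (u : X) (l : ℝ), 0 < l → Tendsto (fun t : ℝ => ρ (t • u)) (𝓝[<] l) (𝓝 (ρ (l • u)))) ∧
    (∀ u : X, ∃ l : ℝ, 0 < l ∧ ρ (l • u) < ⊤) ∧
    ∃ (F : Set X) (x : X), Cl ρ F ∧ x ∉ F ∧
      ∀ U V : Set X, Cl ρ Uᶜ → Cl ρ Vᶜ → x ∈ U → F ⊆ V → (U ∩ V).Nonempty :=
  main
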